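import Pool.Agent.H72.HTrG

namespace Pool.Agent.Results.MP_57df8f_al.Degree

open Pool.Agent.H72 Pool.Agent.H72.HTrDefs

universe u

/-- The transitivity degree of `PGL(2,F)`, `F` a countably infinite field, is `3` if `F` is
locally finite and infinite otherwise. -/
theorem result (F : Type u) [Field F] [Countable F] [Infinite F] :
    (LocFin F → td (Matrix.ProjGenLinGroup (Fin 2) F) = 3) ∧
    (¬ LocFin F → td (Matrix.ProjGenLinGroup (Fin 2) F) = ⊤) := by
  constructor
  · intro h
    apply le_antisymm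
    · refine sSup_le ?_
      rintro _ ⟨n, rfl, -, Ω, _, hf, hk⟩
      exact_mod_cast HTrG.le_three h hk
    · exact le_sSup ⟨3, rfl, by norm_num, HTrC.PP F, inferInstance, HTrC.faithful,
        HTrG.ktrans_three⟩
  · intro h
    obtain ⟨Ω, _, hf, -, hk⟩ := HTrE.highly h
    refine ENat.eq_top_iff_forall_ge.2 fun n => ?_
    refine le_trans (by exact_mod_cast Nat.le_succ n : (n : ℕ∞) ≤ ((n + 1 : ℕ) : ℕ∞)) ?_
    exact le_sSup ⟨n + 1, rfl, by omega, Ω, inferInstance, hf, hk _ (by omega)⟩

end Pool.Agent.Results.MP_57df8f_al.Degree
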