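import Pool.Agent.H72.HTrG

namespace Pool.Agent.Results.MP_57df8f_al.Highly

open Pool.Agent.H72 Pool.Agent.H72.HTrDefs

universe u

lemma main (F : Type u) [Field F] [Countable F] [Infinite F] :
    HighlyTransitive (Matrix.ProjGenLinGroup (Fin 2) F) ↔ ¬ LocFin F := by
  refine ⟨?_, HTrE.highly⟩
  rintro ⟨Ω, _, hf, -, hk⟩ h
  have := HTrG.le_three h (hk 4 (by norm_num))
  omega

/-- For a countably infinite field `F`, the group `PGL(2,F)` is highly transitive if and only if
`F` is not locally finite; both cases occur. -/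
theorem result :
    (∀ (F : Type u) [Field F] [Countable F] [Infinite F],
      HighlyTransitive (Matrix.ProjGenLinGroup (Fin 2) F) ↔ ¬ LocFin F) ∧
    (∃ (F : Type) (_ : Field F), Countable F ∧ Infinite F ∧
      HighlyTransitive (Matrix.ProjGenLinGroup (Fin 2) F)) ∧
    (∃ (F : Type) (_ : Field F), Countable F ∧ Infinite F ∧
      ¬ HighlyTransitive (Matrix.ProjGenLinGroup (Fin 2) F)) := by
  refine ⟨main, ⟨ℚ, inferInstance, inferInstance, inferInstance, (main ℚ).2 fun h => ?_⟩, ?_⟩
  · have := h ∅
    have : Finite ℕ := Finite.of_injective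
      (fun n : ℕ => (⟨n, natCast_mem _ n⟩ : Subfield.closure ((∅ : Finset ℚ) : Set ℚ)))
      fun a b e => by simpa using e
    exact not_finite ℕ
  · have hc : Countable (AlgebraicClosure (ZMod 2)) := by
      rw [← Cardinal.mk_le_aleph0_iff]
      refine (Algebra.IsAlgebraic.cardinalMk_le_max (ZMod 2) _).trans (max_le ?_ le_rfl)
      exact Cardinal.mk_le_aleph0
    refine ⟨AlgebraicClosure (ZMod 2), inferInstance, hc, inferInstance, fun h => ?_⟩
    exact (main _).1 h (HTrE.locFin_of_alg 2 inferInstance)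

end Pool.Agent.Results.MP_57df8f_al.Highly
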